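import Pool.Agent.helper64.D2.SpecC

set_option autoImplicit false

open Filter Topology
open scoped commutatorElement

namespace Pool.Agent.helper64.D2

theorem CMP_mvt (f : ℝ → ℝ) (C : ℝ) (hf : Differentiable ℝ f) (hb : ∀ x, |deriv f x| ≤ C) (x y : ℝ) :
    |f x - f y| ≤ C * |x - y| := by
  have := Convex.norm_image_sub_le_of_norm_deriv_le (f := f) (s := Set.univ) (C := C)
    (fun z _ => hf z) (fun z _ => by simpa using hb z) convex_univ (Set.mem_univ y) (Set.mem_univ x)
  simpa [Real.norm_eq_abs] using this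

theorem CMP (hBAS : BAS_stmt) : CMP_stmt := by
  intro g h X Y p q a b L L' hg hh hX hY hp hpq hq ha hb hL hL'
  obtain ⟨cX, zX, bX, lX⟩ := hX
  obtain ⟨cY, zY, bY, lY⟩ := hY
  have ha0 : 0 ≤ a := le_trans (abs_nonneg _) (bX 0)
  have hb0 : 0 ≤ b := le_trans (abs_nonneg _) (bY 0)
  obtain ⟨BX1, -, -, -⟩ := hBAS X p q a cX zX bX hpq
  obtain ⟨BY1, -, -, -⟩ := hBAS Y p q b cY zY bY hpq
  have dX1 : ∀ x, |deriv X x| ≤ a := fun x => (BX1 x).trans (by nlinarith)
  have dY1 : ∀ x, |deriv Y x| ≤ b := fun x => (BY1 x).trans (by nlinarith)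
  have DX : Differentiable ℝ X := cX.differentiable (by norm_num)
  have DY : Differentiable ℝ Y := cY.differentiable (by norm_num)
  have cX1 : ContDiff ℝ 1 (deriv X) := by
    have : ContDiff ℝ (1 + 1) X := by norm_num; exact cX
    exact (contDiff_succ_iff_deriv.mp this).2.2
  have cY1 : ContDiff ℝ 1 (deriv Y) := by
    have : ContDiff ℝ (1 + 1) Y := by norm_num; exact cY
    exact (contDiff_succ_iff_deriv.mp this).2.2
  have DX1 : Differentiable ℝ (deriv X) := cX1.differentiable (by norm_num)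
  have DY1 : Differentiable ℝ (deriv Y) := cY1.differentiable (by norm_num)
  let H : ℝ → ℝ := fun x => x + Y x
  have hH : ∀ x, H x = x + Y x := fun _ => rfl
  let Z : ℝ → ℝ := fun x => Y x + X (x + Y x)
  have cZ : ContDiff ℝ 2 Z := cY.add (cX.comp (contDiff_id.add cY))
  have dH : ∀ x, HasDerivAt H (1 + deriv Y x) x := fun x => (hasDerivAt_id x).add (DY x).hasDerivAt
  have dZ : ∀ x, HasDerivAt Z (deriv Y x + deriv X (H x) * (1 + deriv Y x)) x := fun x =>
    (DY x).hasDerivAt.add ((DX (H x)).hasDerivAt.comp x (dH x))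
  have eZ : deriv Z = fun x => deriv Y x + deriv X (H x) * (1 + deriv Y x) := by
    funext x; exact (dZ x).deriv
  have d2Z : ∀ x, d2 Z x = d2 Y x + (d2 X (H x) * (1 + deriv Y x) ^ 2 + deriv X (H x) * d2 Y x) := by
    intro x
    have h1 : HasDerivAt (fun x => deriv X (H x)) (d2 X (H x) * (1 + deriv Y x)) x :=
      (DX1 (H x)).hasDerivAt.comp x (dH x)
    have h2 : HasDerivAt (fun x => 1 + deriv Y x) (d2 Y x) x := (DY1 x).hasDerivAt.const_add 1
    have h3 := ((DY1 x).hasDerivAt).add (h1.mul h2)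
    have h4 : HasDerivAt (deriv Z) (d2 Y x + (d2 X (H x) * (1 + deriv Y x) * (1 + deriv Y x) + deriv X (H x) * d2 Y x)) x := by
      rw [eZ]; exact h3
    show deriv (deriv Z) x = _
    rw [h4.deriv]; ring
  refine ⟨Z, ?_, cZ, ?_, ?_, ?_⟩
  · intro x
    have e1 : ev (g * h) x = ev g (ev h x) := rfl
    rw [e1, hh x, hg]
    show x + Y x + X (x + Y x) = x + (Y x + X (x + Y x))
    ring
  · intro x hx
    show Y x + X (x + Y x) = 0
    rw [zY x hx, add_zero, zX x hx, add_zero]
  · intro x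
    rw [d2Z x]
    have h1 : |1 + deriv Y x| ≤ 1 + b := by
      have := abs_add_le 1 (deriv Y x)
      have := dY1 x
      simp only [abs_one] at *
      linarith
    have h2 : |d2 X (H x) * (1 + deriv Y x) ^ 2| ≤ a * (1 + b) ^ 2 := by
      rw [abs_mul, abs_pow]
      exact mul_le_mul (bX _) (pow_le_pow_left₀ (abs_nonneg _) h1 2) (by positivity) ha0
    have h3 : |deriv X (H x) * d2 Y x| ≤ a * b := by
      rw [abs_mul]
      exact mul_le_mul (dX1 _) (bY _) (abs_nonneg _) ha0
    have h4 := abs_add_le (d2 Y x) (d2 X (H x) * (1 + deriv Y x) ^ 2 + deriv X (H x) * d2 Y x)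
    have h5 := abs_add_le (d2 X (H x) * (1 + deriv Y x) ^ 2) (deriv X (H x) * d2 Y x)
    have h6 := bY x
    nlinarith [mul_nonneg ha0 hb0, mul_nonneg (mul_nonneg ha0 hb0) hb0]
  · intro x y
    rw [d2Z x, d2Z y]
    have hxy := abs_nonneg (x - y)
    have hHL : |H x - H y| ≤ (1 + b) * |x - y| := by
      have h1 : H x - H y = (x - y) + (Y x - Y y) := by rw [hH, hH]; ring
      have h2 := CMP_mvt Y b DY dY1 x y
      have h3 := abs_add_le (x - y) (Y x - Y y)
      rw [h1]; linarith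
    have h1 : ∀ z, |1 + deriv Y z| ≤ 1 + b := by
      intro z
      have := abs_add_le 1 (deriv Y z)
      have := dY1 z
      simp only [abs_one] at *
      linarith
    have t1 := lY x y
    -- X''(h) h'^2
    have t2 : |d2 X (H x) * (1 + deriv Y x) ^ 2 - d2 X (H y) * (1 + deriv Y y) ^ 2|
        ≤ (L * (1 + b) ^ 3 + 2 * a * b * (1 + b)) * |x - y| := by
      have e : d2 X (H x) * (1 + deriv Y x) ^ 2 - d2 X (H y) * (1 + deriv Y y) ^ 2
          = (d2 X (H x) - d2 X (H y)) * (1 + deriv Y x) ^ 2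
            + d2 X (H y) * (((1 + deriv Y x) + (1 + deriv Y y)) * (deriv Y x - deriv Y y)) := by ring
      have u1 : |(d2 X (H x) - d2 X (H y)) * (1 + deriv Y x) ^ 2| ≤ (L * ((1 + b) * |x - y|)) * (1 + b) ^ 2 := by
        rw [abs_mul, abs_pow]
        refine mul_le_mul ((lX _ _).trans (mul_le_mul_of_nonneg_left hHL hL)) (pow_le_pow_left₀ (abs_nonneg _) (h1 x) 2) (by positivity) (by positivity)
      have u2 : |d2 X (H y) * (((1 + deriv Y x) + (1 + deriv Y y)) * (deriv Y x - deriv Y y))|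
          ≤ a * ((2 * (1 + b)) * (b * |x - y|)) := by
        rw [abs_mul, abs_mul]
        have v1 : |(1 + deriv Y x) + (1 + deriv Y y)| ≤ 2 * (1 + b) := by
          have := abs_add_le (1 + deriv Y x) (1 + deriv Y y)
          have := h1 x
          have := h1 y
          linarith
        have v2 : |deriv Y x - deriv Y y| ≤ b * |x - y| := CMP_mvt (deriv Y) b DY1 bY x y
        exact mul_le_mul (bX _) (mul_le_mul v1 v2 (abs_nonneg _) (by positivity)) (by positivity) ha0
      rw [e]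
      calc _ ≤ _ := abs_add_le _ _
        _ ≤ (L * ((1 + b) * |x - y|)) * (1 + b) ^ 2 + a * ((2 * (1 + b)) * (b * |x - y|)) := add_le_add u1 u2
        _ = _ := by ring
    have t3 : |deriv X (H x) * d2 Y x - deriv X (H y) * d2 Y y| ≤ (a * b * (1 + b) + a * L') * |x - y| := by
      have e : deriv X (H x) * d2 Y x - deriv X (H y) * d2 Y y
          = (deriv X (H x) - deriv X (H y)) * d2 Y x + deriv X (H y) * (d2 Y x - d2 Y y) := by ring
      have u1 : |(deriv X (H x) - deriv X (H y)) * d2 Y x| ≤ (a * ((1 + b) * |x - y|)) * b := by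
        rw [abs_mul]
        exact mul_le_mul ((CMP_mvt (deriv X) a DX1 bX _ _).trans (mul_le_mul_of_nonneg_left hHL ha0)) (bY x) (abs_nonneg _) (by positivity)
      have u2 : |deriv X (H y) * (d2 Y x - d2 Y y)| ≤ a * (L' * |x - y|) := by
        rw [abs_mul]
        exact mul_le_mul (dX1 _) (lY x y) (abs_nonneg _) ha0
      rw [e]
      calc _ ≤ _ := abs_add_le _ _
        _ ≤ (a * ((1 + b) * |x - y|)) * b + a * (L' * |x - y|) := add_le_add u1 u2
        _ = _ := by ring
    have e : d2 Y x + (d2 X (H x) * (1 + deriv Y x) ^ 2 + deriv X (H x) * d2 Y x)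
        - (d2 Y y + (d2 X (H y) * (1 + deriv Y y) ^ 2 + deriv X (H y) * d2 Y y))
        = (d2 Y x - d2 Y y) + ((d2 X (H x) * (1 + deriv Y x) ^ 2 - d2 X (H y) * (1 + deriv Y y) ^ 2)
          + (deriv X (H x) * d2 Y x - deriv X (H y) * d2 Y y)) := by ring
    rw [e]
    have f1 := abs_add_le (d2 Y x - d2 Y y) ((d2 X (H x) * (1 + deriv Y x) ^ 2 - d2 X (H y) * (1 + deriv Y y) ^ 2)
          + (deriv X (H x) * d2 Y x - deriv X (H y) * d2 Y y))
    have f2 := abs_add_le (d2 X (H x) * (1 + deriv Y x) ^ 2 - d2 X (H y) * (1 + deriv Y y) ^ 2)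
          (deriv X (H x) * d2 Y x - deriv X (H y) * d2 Y y)
    have hc : L' + (L * (1 + b) ^ 3 + 2 * a * b * (1 + b)) + (a * b * (1 + b) + a * L') ≤ 2 * L + 2 * L' + 1 := by
      have c1 : (1 + b) ^ 3 ≤ 2 := by
        have : (1 + b) ^ 3 ≤ (9 / 8) ^ 3 := pow_le_pow_left₀ (by positivity) (by linarith) 3
        norm_num at this ⊢; linarith
      have c2 : L * (1 + b) ^ 3 ≤ L * 2 := mul_le_mul_of_nonneg_left c1 hL
      have c3 : a * L' ≤ (1 / 8) * L' := mul_le_mul_of_nonneg_right ha hL'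
      have c4 : a * b ≤ 1 / 8 * (1 / 8) := mul_le_mul ha hb hb0 (by norm_num)
      have c5 : a * b * (1 + b) ≤ 1 / 8 * (1 / 8) * (9 / 8) := mul_le_mul c4 (by linarith) (by positivity) (by norm_num)
      nlinarith
    have hfin := mul_le_mul_of_nonneg_right hc hxy
    nlinarith

end Pool.Agent.helper64.D2
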